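import Pool.Agent.V11257.RegAlg

/-!
# Minimal products of Boolean algebras are not representable

If more than `n` of the factors have more than two elements, witnessed by `T₀`, and the number of the
subsets of `T₀` is at most `m`, then the minimal `(m, n)`-product is not `m`-representable: choose one
nontrivial element in each factor indexed by `T₀`.  All the meets of the chosen elements or of their
complements, over all `t` in `T₀`, are zero in the minimal `(m, n)`-product, but in an `m`-field of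
sets they form a partition of the space into at most `m` sets.
-/

set_option autoImplicit false

namespace Pool.Agent.Results.MP_705fed_lc.MinimalNotRepresentable

open Set Pool.Agent.V11257 Pool.Agent.V11257.RegAlg
open scoped Cardinal

/-- `m`-fields of sets. -/
structure IsMField (m : Cardinal.{0}) {X : Type} (F : Set (Set X)) : Prop where
  compl : ∀ S ∈ F, Sᶜ ∈ F
  union : ∀ S ∈ F, ∀ T ∈ F, S ∪ T ∈ F
  sUnion : ∀ 𝒮 ⊆ F, Cardinal.mk 𝒮 ≤ m → ⋃₀ 𝒮 ∈ F

/-- `m`-ideals of a field of sets. -/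
structure IsMIdeal (m : Cardinal.{0}) {X : Type} (F D : Set (Set X)) : Prop where
  sub : D ⊆ F
  down : ∀ S ∈ D, ∀ T ∈ F, T ⊆ S → T ∈ D
  union : ∀ S ∈ D, ∀ T ∈ D, S ∪ T ∈ D
  sUnion : ∀ 𝒮 ⊆ D, Cardinal.mk 𝒮 ≤ m → ⋃₀ 𝒮 ∈ D

/-- `B` is `m`-representable: it is isomorphic to the quotient of an `m`-field of sets `F` by an
`m`-ideal `D`, that is, there is a homomorphism of `F` onto `B` with the kernel `D`. -/
def MRepresentable (m : Cardinal.{0}) (B : Type) [BooleanAlgebra B] : Prop :=
  ∃ (X : Type) (F D : Set (Set X)) (φ : Set X → B), IsMField m F ∧ IsMIdeal m F D ∧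
    (∀ b, ∃ S ∈ F, φ S = b) ∧ (∀ S ∈ F, φ Sᶜ = (φ S)ᶜ) ∧
    (∀ S ∈ F, ∀ T ∈ F, φ (S ∪ T) = φ S ⊔ φ T) ∧ ∀ S ∈ F, (φ S = ⊥ ↔ S ∈ D)

/-- `(m, n)`-products of a family of Boolean algebras. -/
structure IsProduct (m n : Cardinal.{0}) {T : Type} {A : T → Type} [∀ t, BooleanAlgebra (A t)]
    {B : Type} [BooleanAlgebra B] (i : ∀ t, A t → B) : Prop where
  complete : MComplete m B
  hom : ∀ t, IsMHom m (i t)
  injective : ∀ t, Function.Injective (i t)
  indep : ∀ T' : Set T, Cardinal.mk T' ≤ n → ∀ a : ∀ t, A t, (∀ t ∈ T', i t (a t) ≠ ⊥) →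
    ∀ b, IsGLB ((fun t => i t (a t)) '' T') b → b ≠ ⊥
  generates : MGenerates m (⋃ t, range (i t))

/-- Minimal `(m, n)`-products: every nonzero element is above a nonzero meet of at most `n` elements
of different factors. -/
structure IsMinimalProduct (m n : Cardinal.{0}) {T : Type} {A : T → Type}
    [∀ t, BooleanAlgebra (A t)] {B : Type} [BooleanAlgebra B] (i : ∀ t, A t → B) : Prop extends
    IsProduct m n i where
  minimal : ∀ b : B, b ≠ ⊥ → ∃ (T' : Set T) (a : ∀ t, A t) (c : B), Cardinal.mk T' ≤ n ∧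
    IsGLB ((fun t => i t (a t)) '' T') c ∧ c ≠ ⊥ ∧ c ≤ b

/-! ## Homomorphisms -/

section hom

variable {m : Cardinal.{0}} {B C : Type} [BooleanAlgebra B] [BooleanAlgebra C] {h : B → C}

theorem _root_.Pool.Agent.V11257.RegAlg.IsMHom.inf (hh : IsMHom m h) (x y : B) :
    h (x ⊓ y) = h x ⊓ h y := by
  have h1 : x ⊓ y = (xᶜ ⊔ yᶜ)ᶜ := by rw [compl_sup, compl_compl, compl_compl]
  rw [h1, hh.compl, hh.sup, hh.compl, hh.compl, compl_sup, compl_compl, compl_compl]

theorem _root_.Pool.Agent.V11257.RegAlg.IsMHom.bot (hh : IsMHom m h) : h ⊥ = ⊥ := by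
  have h1 : h (⊥ ⊓ ⊥ᶜ) = h ⊥ ⊓ (h ⊥)ᶜ := by rw [hh.inf, hh.compl]
  rwa [inf_compl_self, inf_compl_self] at h1

theorem _root_.Pool.Agent.V11257.RegAlg.IsMHom.mono (hh : IsMHom m h) {x y : B} (hxy : x ≤ y) :
    h x ≤ h y := by
  rw [← sup_eq_right, ← hh.sup, sup_eq_right.2 hxy]

end hom

/-! ## Minimal products are not representable -/

section negative

variable {m n : Cardinal.{0}} {T : Type} {A : T → Type} [∀ t, BooleanAlgebra (A t)]
  {B : Type} [BooleanAlgebra B] {i : ∀ t, A t → B}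

theorem not_representable (hn : ℵ₀ ≤ n) (hnm : n ≤ m) (T₀ : Set T) (hT₀ : n < Cardinal.mk T₀)
    (hm : 2 ^ Cardinal.mk T₀ ≤ m) (hA : ∀ t ∈ T₀, ∃ a : A t, a ≠ ⊥ ∧ a ≠ ⊤)
    (hi : IsMinimalProduct m n i) : ¬ MRepresentable m B := by
  classical
  rintro ⟨X, F, D, φ, hF, hD, hsurj, hφc, hφu, hφk⟩
  -- the chosen elements
  have hA' : ∀ t : T₀, ∃ a : A t, a ≠ ⊥ ∧ a ≠ ⊤ := fun t => hA t t.2
  choose a ha0 ha1 using hA'
  have hT₀m : Cardinal.mk T₀ ≤ m := (Cardinal.cantor _).le.trans hm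
  -- the value of the chosen element or of its complement
  let e : (t : T₀) → Prop → A t := fun t p => if p then a t else (a t)ᶜ
  have he : ∀ t p, (e t p)ᶜ ≠ ⊥ := by
    intro t p
    by_cases hp : p
    · simp only [e, if_pos hp, ne_eq, compl_eq_bot]
      exact ha1 t
    · simp only [e, if_neg hp, compl_compl, ne_eq]
      exact ha0 t
  -- all the complete meets vanish
  have key : ∀ (f : T₀ → Prop) (b : B), (∀ t : T₀, b ≤ i t (e t (f t))) → b = ⊥ := by
    intro f b hb
    by_contra hne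
    obtain ⟨T', c, d, hT', hd, hd0, hdb⟩ := hi.minimal b hne
    have hex : ∃ t : T₀, t.1 ∉ T' := by
      by_contra hcon
      push Not at hcon
      have h1 : T₀ ⊆ T' := fun t ht => hcon ⟨t, ht⟩
      exact absurd (Cardinal.mk_le_mk_of_subset h1) (not_le.2 (hT'.trans_lt hT₀))
    obtain ⟨t, ht⟩ := hex
    let c' : ∀ s, A s := Function.update c t.1 (e t (f t))ᶜ
    have hc't : c' t.1 = (e t (f t))ᶜ := Function.update_self _ _ _
    have hc's : ∀ s ∈ T', c' s = c s := fun s hs =>
      Function.update_of_ne (by rintro rfl; exact ht hs) _ _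
    have hcard : Cardinal.mk (insert t.1 T' : Set T) ≤ n :=
      Cardinal.mk_insert_le.trans (Cardinal.add_le_of_le hn hT' (Cardinal.one_le_aleph0.trans hn))
    obtain ⟨g, hg⟩ := (hi.complete ((fun s => i s (c' s)) '' insert t.1 T')
      (Cardinal.mk_image_le.trans (hcard.trans hnm))).2
    have hg0 : g ≠ ⊥ := by
      refine hi.indep _ hcard c' ?_ g hg
      intro s hs
      rcases hs with rfl | hs
      · rw [hc't]
        intro h1
        exact he t (f t) (hi.injective t.1 (h1.trans (hi.hom t.1).bot.symm))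
      · rw [hc's s hs]
        intro h1
        have h2 : d ≤ i s (c s) := hd.1 ⟨s, hs, rfl⟩
        rw [h1] at h2
        exact hd0 (le_bot_iff.1 h2)
    have hgd : g ≤ d := hd.2 (by
      rintro _ ⟨s, hs, rfl⟩
      have h1 : g ≤ i s (c' s) := hg.1 ⟨s, Or.inr hs, rfl⟩
      rwa [hc's s hs] at h1)
    have hg1 : g ≤ (i t.1 (e t (f t)))ᶜ := by
      have h1 : g ≤ i t.1 (c' t.1) := hg.1 ⟨t.1, Or.inl rfl, rfl⟩
      rwa [hc't, (hi.hom t.1).compl] at h1
    have hg2 : g ≤ i t.1 (e t (f t)) := hgd.trans (hdb.trans (hb t))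
    exact hg0 (le_bot_iff.1 (by
      rw [← inf_compl_self (i t.1 (e t (f t)))]
      exact le_inf hg2 hg1))
  -- the field
  have hFmono : ∀ S ∈ F, ∀ S' ∈ F, S ⊆ S' → φ S ≤ φ S' := by
    intro S hS S' hS' hSS
    have h1 := hφu S hS S' hS'
    rw [union_eq_self_of_subset_left hSS] at h1
    rw [h1]
    exact le_sup_left
  have hFinter : ∀ 𝒮 ⊆ F, Cardinal.mk 𝒮 ≤ m → ⋂₀ 𝒮 ∈ F := by
    intro 𝒮 h𝒮 hc
    have h1 : ⋃₀ (compl '' 𝒮) ∈ F := hF.sUnion _ (by
      rintro _ ⟨S, hS, rfl⟩
      exact hF.compl S (h𝒮 hS)) (Cardinal.mk_image_le.trans hc)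
    have h2 := hF.compl _ h1
    rwa [← sInter_eq_compl_sUnion_compl] at h2
  have hex : ∀ t : T₀, ∃ S ∈ F, φ S = i t (a t) := fun t => hsurj _
  choose S hSF hSφ using hex
  let S' : T₀ → Prop → Set X := fun t p => if p then S t else (S t)ᶜ
  have hS'F : ∀ t p, S' t p ∈ F := by
    intro t p
    by_cases hp : p
    · simp only [S', if_pos hp]; exact hSF t
    · simp only [S', if_neg hp]; exact hF.compl _ (hSF t)
  have hS'φ : ∀ t p, φ (S' t p) = i t (e t p) := by
    intro t p
    by_cases hp : p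
    · simp only [S', e, if_pos hp]; exact hSφ t
    · simp only [S', e, if_neg hp]; rw [hφc _ (hSF t), hSφ, (hi.hom t.1).compl]
  let Q : (T₀ → Prop) → Set X := fun f => ⋂₀ (range fun t => S' t (f t))
  have hQF : ∀ f, Q f ∈ F := fun f => hFinter _ (by
    rintro _ ⟨t, rfl⟩
    exact hS'F _ _) (Cardinal.mk_range_le.trans hT₀m)
  have hQD : ∀ f, Q f ∈ D := by
    intro f
    rw [← hφk _ (hQF f)]
    refine key f _ fun t => ?_
    rw [← hS'φ]
    exact hFmono _ (hQF f) _ (hS'F _ _) (sInter_subset_of_mem ⟨t, rfl⟩)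
  have huniv : ⋃₀ (range Q) = univ := by
    rw [eq_univ_iff_forall]
    intro x
    refine ⟨_, ⟨fun t => x ∈ S t, rfl⟩, ?_⟩
    rintro _ ⟨t, rfl⟩
    change x ∈ (if x ∈ S t then S t else (S t)ᶜ)
    split_ifs with h
    · exact h
    · exact h
  have h1 : (univ : Set X) ∈ D := by
    rw [← huniv]
    refine hD.sUnion _ (by
      rintro _ ⟨f, rfl⟩
      exact hQD f) (Cardinal.mk_range_le.trans ?_)
    rw [← Cardinal.power_def, Cardinal.mk_Prop]
    exact hm
  have h2 : φ univ = ⊥ := (hφk _ (hD.sub h1)).2 h1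
  -- the algebra is not degenerate
  have hne : Nonempty T₀ := by
    rw [← Cardinal.mk_ne_zero_iff]
    exact (hn.trans hT₀.le |>.trans_lt' Cardinal.aleph0_pos).ne'
  obtain ⟨t⟩ := hne
  have h3 : i t (a t) = ⊥ := by
    rw [← hSφ t, ← le_bot_iff, ← h2]
    exact hFmono _ (hSF t) _ (hD.sub h1) (subset_univ _)
  exact ha0 t (hi.injective t.1 (h3.trans (hi.hom t.1).bot.symm))

end negative

/-! ## Existence of the minimal products -/

section existence

variable (n : Cardinal.{0}) {T : Type} (A : T → Type) [∀ t, BooleanAlgebra (A t)]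

/-- The conditions: choices of nonzero elements of the factors, at most `n` of them different from
the unit. -/
def Cond : Type := {p : ∀ t, A t // (∀ t, p t ≠ ⊥) ∧ Cardinal.mk {t | p t ≠ ⊤} ≤ n}

instance : Preorder (Cond n A) := Subtype.preorder _

variable {n A}

/-- The conditions below an element of a factor. -/
def low (t : T) (a : A t) : LowerSet (Cond n A) :=
  ⟨{p | p.1 t ≤ a}, fun _ _ hpq hp => (hpq t).trans hp⟩

theorem mem_low {t : T} {a : A t} {p : Cond n A} : p ∈ low t a ↔ p.1 t ≤ a := Iff.rfl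

open Classical in
/-- Change one coordinate of a condition. -/
noncomputable def upd (hn : ℵ₀ ≤ n) (p : Cond n A) (t : T) (a : A t) (ha : a ≠ ⊥) : Cond n A :=
  ⟨Function.update p.1 t a, by
    intro s
    by_cases h : s = t
    · subst h
      rw [Function.update_self]
      exact ha
    · rw [Function.update_of_ne h]
      exact p.2.1 s, by
    refine (Cardinal.mk_le_mk_of_subset (t := insert t {s | p.1 s ≠ ⊤}) ?_).trans
      (Cardinal.mk_insert_le.trans
        (Cardinal.add_le_of_le hn p.2.2 (Cardinal.one_le_aleph0.trans hn)))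
    intro s hs
    by_cases h : s = t
    · exact Or.inl h
    · refine Or.inr ?_
      have h1 : Function.update p.1 t a s ≠ ⊤ := hs
      rwa [Function.update_of_ne h] at h1⟩

theorem upd_self (hn : ℵ₀ ≤ n) (p : Cond n A) (t : T) (a : A t) (ha : a ≠ ⊥) :
    (upd hn p t a ha).1 t = a := by
  classical
  exact Function.update_self t a p.1

theorem upd_le (hn : ℵ₀ ≤ n) (p : Cond n A) (t : T) (a : A t) (ha : a ≠ ⊥) (hpa : a ≤ p.1 t) :
    upd hn p t a ha ≤ p := by
  classical
  intro s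
  by_cases h : s = t
  · subst h
    rw [upd_self]
    exact hpa
  · change Function.update p.1 t a s ≤ p.1 s
    rw [Function.update_of_ne h]

theorem low_compl (hn : ℵ₀ ≤ n) (t : T) (a : A t) :
    (low t a : LowerSet (Cond n A))ᶜ = low t aᶜ := by
  ext p
  rw [SetLike.mem_coe, SetLike.mem_coe, RegAlg.mem_compl, mem_low]
  constructor
  · intro h
    rw [le_compl_iff_disjoint_right, disjoint_iff]
    by_contra hne
    exact h (upd hn p t _ hne) (upd_le hn p t _ hne inf_le_left) (by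
      rw [mem_low, upd_self]
      exact inf_le_right)
  · intro h q hq hqa
    have h1 : q.1 t ≤ a ⊓ aᶜ := le_inf hqa ((hq t).trans h)
    rw [inf_compl_self] at h1
    exact q.2.1 t (le_bot_iff.1 h1)

/-- The embeddings of the factors in the algebra of the regular lower sets of conditions. -/
def emb (hn : ℵ₀ ≤ n) (t : T) (a : A t) : RO (Cond n A) :=
  ⟨low t a, isRegular_of_compl (low_compl hn t a) (by rw [low_compl hn, compl_compl])⟩

theorem mem_emb {hn : ℵ₀ ≤ n} {t : T} {a : A t} {p : Cond n A} :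
    p ∈ ((emb hn t a : RO (Cond n A)) : LowerSet (Cond n A)) ↔ p.1 t ≤ a := Iff.rfl

theorem emb_compl (hn : ℵ₀ ≤ n) (t : T) (a : A t) :
    (emb hn t aᶜ : RO (Cond n A)) = (emb hn t a)ᶜ := by
  rw [← Heyting.Regular.coe_inj, Heyting.Regular.coe_compl]
  exact (low_compl hn t a).symm

theorem emb_mono (hn : ℵ₀ ≤ n) (t : T) {a b : A t} (h : a ≤ b) :
    (emb hn t a : RO (Cond n A)) ≤ emb hn t b := by
  rw [← Heyting.Regular.coe_le_coe]
  intro p hp
  exact (show p.1 t ≤ a from hp).trans h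

theorem emb_inf (hn : ℵ₀ ≤ n) (t : T) (a b : A t) :
    (emb hn t (a ⊓ b) : RO (Cond n A)) = emb hn t a ⊓ emb hn t b := by
  rw [← Heyting.Regular.coe_inj, Heyting.Regular.coe_inf]
  ext p
  exact le_inf_iff

theorem emb_sup (hn : ℵ₀ ≤ n) (t : T) (a b : A t) :
    (emb hn t (a ⊔ b) : RO (Cond n A)) = emb hn t a ⊔ emb hn t b := by
  have h1 : a ⊔ b = (aᶜ ⊓ bᶜ)ᶜ := by rw [compl_inf, compl_compl, compl_compl]
  rw [h1, emb_compl, emb_inf, emb_compl, emb_compl]
  have h2 := compl_inf (x := (emb hn t a : RO (Cond n A))ᶜ) (y := (emb hn t b)ᶜ)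
  rw [compl_compl, compl_compl] at h2
  exact h2

theorem emb_join (hn : ℵ₀ ≤ n) (t : T) {S : Set (A t)} {a : A t} (h : IsLUB S a) :
    IsLUB ((emb hn t : A t → RO (Cond n A)) '' S) (emb hn t a) := by
  constructor
  · rintro _ ⟨s, hs, rfl⟩
    exact emb_mono hn t (h.1 hs)
  · intro c hc
    rw [← Heyting.Regular.coe_le_coe]
    intro p hp
    by_contra hpc
    obtain ⟨q, hqp, hq⟩ := exists_compl_of_notMem hpc
    have hqa : q.1 t ≤ a := (hqp t).trans hp
    have hex : ∃ s ∈ S, q.1 t ⊓ s ≠ ⊥ := by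
      by_contra hcon
      push Not at hcon
      have h1 : a ≤ (q.1 t)ᶜ := h.2 fun s hs => by
        rw [le_compl_iff_disjoint_left, disjoint_iff]
        exact hcon s hs
      have h2 : q.1 t ≤ q.1 t ⊓ (q.1 t)ᶜ := le_inf le_rfl (hqa.trans h1)
      rw [inf_compl_self] at h2
      exact q.2.1 t (le_bot_iff.1 h2)
    obtain ⟨s, hs, hne⟩ := hex
    have h3 : upd hn q t _ hne ∈ ((emb hn t s : RO (Cond n A)) : LowerSet (Cond n A)) := by
      rw [mem_emb, upd_self]
      exact inf_le_right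
    exact hq _ (upd_le hn q t _ hne inf_le_left)
      (Heyting.Regular.coe_le_coe.2 (hc ⟨s, hs, rfl⟩) h3)

/-- The trivial condition. -/
def triv (hA : ∀ t, Nontrivial (A t)) : Cond n A :=
  ⟨fun _ => ⊤, fun t => by
    have := hA t
    exact top_ne_bot, by simp⟩

theorem emb_injective (hn : ℵ₀ ≤ n) (hA : ∀ t, Nontrivial (A t)) (t : T) :
    Function.Injective (emb hn t : A t → RO (Cond n A)) := by
  have key : ∀ a b : A t, (emb hn t a : RO (Cond n A)) = emb hn t b → a ≤ b := by
    intro a b hab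
    by_contra hcon
    have hne : a ⊓ bᶜ ≠ ⊥ := by
      rwa [ne_eq, ← disjoint_iff, disjoint_compl_right_iff]
    have h1 : upd hn (triv hA) t _ hne ∈ ((emb hn t a : RO (Cond n A)) : LowerSet (Cond n A)) := by
      rw [mem_emb, upd_self]
      exact inf_le_left
    rw [hab, mem_emb, upd_self] at h1
    have h2 : a ⊓ bᶜ ≤ b ⊓ bᶜ := le_inf h1 inf_le_right
    rw [inf_compl_self] at h2
    exact hne (le_bot_iff.1 h2)
  intro a b hab
  exact le_antisymm (key a b hab) (key b a hab.symm)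

theorem exists_product (m : Cardinal.{0}) (hn : ℵ₀ ≤ n) (hnm : n ≤ m)
    (hA : ∀ t, Nontrivial (A t)) : ∃ (B : Type) (_ : BooleanAlgebra B) (i : ∀ t, A t → B),
      IsMinimalProduct m n i := by
  classical
  let G : Set (RO (Cond n A)) := ⋃ t, range (emb hn t)
  have hG : ∀ t (a : A t), emb hn t a ∈ G := fun t a => mem_iUnion.2 ⟨t, a, rfl⟩
  let i : ∀ t, A t → mcl m G := fun t a => ⟨emb hn t a, subset_car m G (hG t a)⟩
  have himg : ∀ t (S : Set (A t)), Subtype.val '' (i t '' S) = emb hn t '' S := by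
    intro t S
    rw [image_image]
  have hcompl : ∀ t (a : A t), i t aᶜ = (i t a)ᶜ := fun t a => Subtype.ext (emb_compl hn t a)
  have hjoin : ∀ t (S : Set (A t)) (a : A t), IsLUB S a → IsLUB (i t '' S) (i t a) := by
    intro t S a h
    apply isLUB_val_of
    rw [himg]
    exact emb_join hn t h
  have himg' : ∀ (T' : Set T) (a : ∀ t, A t), Subtype.val '' ((fun t => i t (a t)) '' T') =
      (fun t => emb hn t (a t)) '' T' := by
    intro T' a
    rw [image_image]
  refine ⟨mcl m G, inferInstance, i, ⟨⟨mcomplete_mcl exists_isLUB m G, ?_, ?_, ?_, ?_⟩, ?_⟩⟩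
  · intro t
    exact ⟨hcompl t, fun a b => Subtype.ext (emb_sup hn t a b), fun S _ a h => hjoin t S a h,
      fun S _ a h => isGLB_of_join (hcompl t) (hjoin t _ _) h⟩
  · intro t a b hab
    exact emb_injective hn hA t (congrArg Subtype.val hab)
  · intro T' hT' a ha b hb hb0
    have h1 := isGLB_val exists_isLUB (Cardinal.mk_image_le.trans (hT'.trans hnm)) hb
    rw [himg'] at h1
    have ha' : ∀ t ∈ T', a t ≠ ⊥ := by
      rintro t ht h2
      apply ha t ht
      have h3 : (a t) = (a t)ᶜᶜ ⊓ (a t)ᶜ := by rw [compl_compl, inf_compl_self, h2]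
      rw [h3, Subtype.ext_iff]
      change emb hn t _ = ⊥
      rw [emb_inf, compl_compl, emb_compl]
      exact inf_compl_self _
    let p : Cond n A := ⟨fun t => if t ∈ T' then a t else ⊤, by
      intro t
      have := hA t
      change (if t ∈ T' then a t else ⊤) ≠ ⊥
      split_ifs with h
      · exact ha' t h
      · exact top_ne_bot, by
      refine (Cardinal.mk_le_mk_of_subset fun t ht => ?_).trans hT'
      by_contra h
      exact ht (if_neg h)⟩
    have hp : p ∈ ((b.1 : RO (Cond n A)) : LowerSet (Cond n A)) := by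
      rw [mem_isGLB h1]
      rintro _ ⟨t, ht, rfl⟩
      rw [mem_emb]
      exact (if_pos ht).le
    exact ne_bot_of_mem hp (congrArg Subtype.val hb0)
  · have h1 : (⋃ t, range (i t)) = Subtype.val ⁻¹' G := by
      ext x
      rw [mem_iUnion, mem_preimage, mem_iUnion]
      refine exists_congr fun t => ?_
      constructor
      · rintro ⟨a, rfl⟩
        exact ⟨a, rfl⟩
      · rintro ⟨a, ha⟩
        exact ⟨a, Subtype.ext ha⟩
    rw [h1]
    exact mgenerates_mcl m G
  · intro b hb
    have hb' : b.1 ≠ ⊥ := fun h => hb (Subtype.ext h)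
    obtain ⟨p, hp⟩ := exists_mem_of_ne_bot hb'
    obtain ⟨c, hc⟩ := (mcomplete_mcl exists_isLUB m G ((fun t => i t (p.1 t)) '' {t | p.1 t ≠ ⊤})
      (Cardinal.mk_image_le.trans (p.2.2.trans hnm))).2
    have h1 := isGLB_val exists_isLUB (Cardinal.mk_image_le.trans (p.2.2.trans hnm)) hc
    rw [himg'] at h1
    refine ⟨{t | p.1 t ≠ ⊤}, p.1, c, p.2.2, hc, ?_, ?_⟩
    · intro h
      have hpc : p ∈ ((c.1 : RO (Cond n A)) : LowerSet (Cond n A)) := by
        rw [mem_isGLB h1]
        rintro _ ⟨t, ht, rfl⟩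
        exact le_rfl
      exact ne_bot_of_mem hpc (congrArg Subtype.val h)
    · change c.1 ≤ b.1
      rw [← Heyting.Regular.coe_le_coe]
      intro q hq
      have h2 := (mem_isGLB h1).1 hq
      refine (b.1 : LowerSet (Cond n A)).lower (a := p) ?_ hp
      intro t
      by_cases ht : p.1 t = ⊤
      · rw [ht]; exact le_top
      · exact h2 _ ⟨t, ht, rfl⟩

end existence

/-- Boolean algebras of all the subsets of a set are representable. -/
theorem representable_set (m : Cardinal.{0}) (X : Type) : MRepresentable m (Set X) := by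
  refine ⟨X, univ, {∅}, id, ⟨fun _ _ => trivial, fun _ _ _ _ => trivial, fun _ _ _ => trivial⟩,
    ⟨fun _ _ => trivial, ?_, ?_, ?_⟩, fun b => ⟨b, trivial, rfl⟩, fun _ _ => rfl,
    fun _ _ _ _ => rfl, fun S _ => Iff.rfl⟩
  · rintro S rfl S' - h
    exact subset_empty_iff.1 h
  · rintro S rfl S' rfl
    exact union_self _
  · intro 𝒮 h𝒮 _
    rw [mem_singleton_iff, sUnion_eq_empty]
    exact fun S hS => h𝒮 hS

/-- **Minimal `(m, n)`-products are not representable.**  (1) For all infinite `n ≤ m` and every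
family of nondegenerate algebras with a set `T₀` of more than `n` indices such that `2 ^ |T₀| ≤ m` and
the factors with the indices in `T₀` have more than two elements, there is a minimal `(m, n)`-product,
and no minimal `(m, n)`-product is `m`-representable.  (2) In particular, for every infinite `n` there
are `m ≥ n` and a family of `m`-representable nondegenerate Boolean `m`-algebras (the power sets of a
two-point set) such that its minimal `(m, n)`-product exists and is not `m`-representable. -/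
theorem result :
    (∀ (n m : Cardinal.{0}), ℵ₀ ≤ n → n ≤ m → ∀ (T : Type) (A : T → Type)
      [∀ t, BooleanAlgebra (A t)], (∀ t, Nontrivial (A t)) → ∀ T₀ : Set T, n < Cardinal.mk T₀ →
      2 ^ Cardinal.mk T₀ ≤ m → (∀ t ∈ T₀, ∃ a : A t, a ≠ ⊥ ∧ a ≠ ⊤) →
      (∃ (B : Type) (_ : BooleanAlgebra B) (i : ∀ t, A t → B), IsMinimalProduct m n i) ∧
      ∀ (B : Type) [BooleanAlgebra B] (i : ∀ t, A t → B), IsMinimalProduct m n i →
        ¬ MRepresentable m B) ∧
    ∀ n : Cardinal.{0}, ℵ₀ ≤ n → ∃ (m : Cardinal.{0}) (T : Type) (A : T → Type)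
      (_ : ∀ t, BooleanAlgebra (A t)), n ≤ m ∧ (∀ t, Nontrivial (A t) ∧ MComplete m (A t) ∧
        MRepresentable m (A t)) ∧
      (∃ (B : Type) (_ : BooleanAlgebra B) (i : ∀ t, A t → B), IsMinimalProduct m n i) ∧
      ∀ (B : Type) [BooleanAlgebra B] (i : ∀ t, A t → B), IsMinimalProduct m n i →
        ¬ MRepresentable m B := by
  have h1 : ∀ (n m : Cardinal.{0}), ℵ₀ ≤ n → n ≤ m → ∀ (T : Type) (A : T → Type)
      [∀ t, BooleanAlgebra (A t)], (∀ t, Nontrivial (A t)) → ∀ T₀ : Set T, n < Cardinal.mk T₀ →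
      2 ^ Cardinal.mk T₀ ≤ m → (∀ t ∈ T₀, ∃ a : A t, a ≠ ⊥ ∧ a ≠ ⊤) →
      (∃ (B : Type) (_ : BooleanAlgebra B) (i : ∀ t, A t → B), IsMinimalProduct m n i) ∧
      ∀ (B : Type) [BooleanAlgebra B] (i : ∀ t, A t → B), IsMinimalProduct m n i →
        ¬ MRepresentable m B := by
    intro n m hn hnm T A _ hA T₀ hT₀ hm hA₀
    exact ⟨exists_product m hn hnm hA,
      fun B _ i hi => not_representable hn hnm T₀ hT₀ hm hA₀ hi⟩
  refine ⟨h1, fun n hn => ?_⟩
  let T : Type := Quotient.out (2 ^ n : Cardinal.{0})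
  have hT : Cardinal.mk T = 2 ^ n := Cardinal.mk_out _
  let A : T → Type := fun _ => Set Bool
  let _ : ∀ t, BooleanAlgebra (A t) := fun _ => (inferInstance : BooleanAlgebra (Set Bool))
  have hA : ∀ t, Nontrivial (A t) := fun _ => (inferInstance : Nontrivial (Set Bool))
  have hcard : n < Cardinal.mk (Set.univ : Set T) := by
    rw [Cardinal.mk_univ, hT]
    exact Cardinal.cantor n
  have hnm : n ≤ 2 ^ Cardinal.mk (Set.univ : Set T) := (hcard.trans (Cardinal.cantor _)).le
  refine ⟨2 ^ Cardinal.mk (Set.univ : Set T), T, A, inferInstance, hnm,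
    fun t => ⟨hA t, fun S _ => ⟨⟨sSup S, isLUB_sSup S⟩, ⟨sInf S, isGLB_sInf S⟩⟩,
      representable_set _ Bool⟩, ?_⟩
  refine h1 n _ hn hnm T A hA Set.univ hcard le_rfl fun t _ => ⟨({true} : Set Bool), ?_, ?_⟩
  · exact (singleton_nonempty _).ne_empty
  · intro h
    have h2 : false ∈ ({true} : Set Bool) := by
      rw [show ({true} : Set Bool) = Set.univ from h]
      trivial
    exact Bool.false_ne_true h2

end Pool.Agent.Results.MP_705fed_lc.MinimalNotRepresentable
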